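import Pool.Agent.X90.DH.Rk5

/-!
# The space spanned by the relations of bounded height, mixed weights
-/

set_option autoImplicit false

namespace Pool.Agent.X90.DH

open Finset
open Pool.Agent.Y760.ZG (mz)
open Pool.Agent.Y760.ZF (sti)
open Pool.Agent.X90.DB (Ad ix ex ex_nil ex_ne)
open Pool.Agent.X90.DC
open Pool.Agent.X90.DD
open Pool.Agent.X90.DE

lemma wd5_inj {W s : ℕ} (hs : W < s) : Function.Injective fun i : ↥(IM W) => wd5 s i.1 := by
  intro i i' h
  have h1 := (mem_IM.1 i.2).2.2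
  have h2 := (mem_IM.1 i'.2).2.2
  obtain ⟨g1, g2, g3⟩ := split_inj W i.1.1 i'.1.1 i.1.2.2 i'.1.2.2 _ _
    (fun t ht => (le_of_mem_sum ht).trans (by omega))
    (fun t ht => (le_of_mem_sum ht).trans (by omega)) (by omega) (by omega) h
  ext1
  exact Prod.ext g1 (Prod.ext (by omega) g3)

lemma wd5_pos {W s : ℕ} (hs : 1 ≤ s) (i : ↥(IM W)) : ∀ a ∈ wd5 s i.1, 1 ≤ a := by
  intro a ha
  obtain ⟨h1, h2, h3⟩ := mem_IM.1 i.2
  rw [wd5, gw5, List.mem_append, List.mem_cons] at ha
  rcases ha with ha | rfl | ha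
  · rcases h1 with h1 | h1
    · rw [h1] at ha
      exact absurd ha List.not_mem_nil
    · exact h1.pos a ha
  · omega
  · exact h2 a ha

/-- the indices of weight at most `s + W` with an entry at least `s` -/
def Fam5 (W s : ℕ) (w : List ℕ) : Prop := (w = [] ∨ Ad w) ∧ w.sum ≤ s + W ∧ ∃ t ∈ w, s ≤ t

lemma fam5_iff {W s : ℕ} (hs : 2 ≤ s) (w : List ℕ) :
    Fam5 W s w ↔ ∃ i : ↥(IM W), w = wd5 s i.1 := by
  constructor
  · rintro ⟨h1, h2, t, ht, h3⟩
    obtain ⟨q, r, rfl⟩ := List.append_of_mem ht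
    have hA : Ad (q ++ t :: r) := h1.resolve_left (by simp)
    rw [List.sum_append, List.sum_cons] at h2
    refine ⟨⟨(q, t - s, r), mem_IM.2 ⟨ad_of_prefix hA, fun a ha => hA.pos a
      (List.mem_append_right _ (List.mem_cons_of_mem _ ha)), ?_⟩⟩, ?_⟩
    · simp only
      omega
    · show _ = q ++ (t - s + s) :: r
      have h4 : t = t - s + s := by omega
      rw [← h4]
  · rintro ⟨i, rfl⟩
    obtain ⟨h1, h2, h3⟩ := mem_IM.1 i.2
    refine ⟨Or.inr ?_, ?_, i.1.2.1 + s, ?_, by omega⟩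
    · rcases h4 : i.1.1 with _ | ⟨b, q⟩
      · rw [wd5, h4, gw5, List.nil_append]
        exact ⟨by omega, h2⟩
      · have h5 := wd5_pos (by omega : 1 ≤ s) i
        rw [wd5, h4, List.cons_append] at h5 ⊢
        refine ⟨?_, fun t ht => h5 t (List.mem_cons_of_mem _ ht)⟩
        rw [h4] at h1
        exact (h1.resolve_left (List.cons_ne_nil _ _)).1
    · rw [wd5_sum]
      omega
    · rw [wd5, gw5]
      exact List.mem_append_right _ List.mem_cons_self

/-- **the expansion is injective** -/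
lemma Ph5_inj {W m : ℕ} (ii jj : Fin m → ↥(IM W)) (cc : Fin m → ℤ)
    (hexp : ∀ (A : Type) [CommRing A] (Z : List ℕ → A),
      (∀ u v, Ad u → Ad v → Z u * Z v = ((sti u v).map Z).sum) →
      ∀ s : ℕ, 2 ≤ s → ∀ c : ↥(IM W) → ℤ, ∑ i, (c i : A) * ex Z (wd5 s i.1) =
        ∑ j, ((c (ii j) * cc j : ℤ) : A) *
          (ex Z (jj j).1.1 * ex Z (gw5 s (jj j).1.2))) :
    Function.Injective (Ph5 ii jj cc) := by
  classical
  rw [← LinearMap.ker_eq_bot, LinearMap.ker_eq_bot']
  intro c hc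
  obtain ⟨Δ, hΔ, a, ha⟩ := Pool.Agent.X90.DA.common_den c
  by_contra hne
  obtain ⟨i0, hi0⟩ : ∃ i, c i ≠ 0 := by
    by_contra h
    push Not at h
    exact hne (funext h)
  have ha0 : a i0 ≠ 0 := by
    intro h0
    have h1 := ha i0
    rw [h0, Int.cast_zero] at h1
    have hΔ' : (Δ : ℚ) ≠ 0 := by exact_mod_cast hΔ
    exact hi0 ((mul_eq_zero.1 h1).resolve_left hΔ')
  have hPa : ∀ i, ∑ j with jj j = i, a (ii j) * cc j = 0 := by
    intro i
    have h1 : ∑ j with jj j = i, c (ii j) * cc j = 0 := congrFun hc i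
    have h2 : ((∑ j with jj j = i, a (ii j) * cc j : ℤ) : ℚ) = Δ *
        ∑ j with jj j = i, c (ii j) * cc j := by
      push_cast
      rw [mul_sum]
      exact sum_congr rfl fun j _ => by rw [← ha (ii j)]; ring
    rw [h1, mul_zero] at h2
    exact_mod_cast h2
  set s : ℕ := W + 2 with hs
  have hinj := wd5_inj (by omega : W < s)
  obtain ⟨ℓ, hℓ⟩ : ∃ ℓ : ℕ, ∀ i : ↥(IM W), (wd5 s i.1).length ≤ ℓ :=
    ⟨∑ i : ↥(IM W), (wd5 s i.1).length, fun i =>
      single_le_sum (f := fun i : ↥(IM W) => (wd5 s i.1).length)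
      (fun _ _ => Nat.zero_le _) (mem_univ i)⟩
  set d : List ℕ → ℤ := fun u => ∑ i with wd5 s i.1 = u, a i with hd
  have hdi : ∀ i, d (wd5 s i.1) = a i := by
    intro i
    have h1 : (univ.filter fun i' : ↥(IM W) => wd5 s i'.1 = wd5 s i.1) = {i} := by
      ext i'
      rw [mem_filter, mem_singleton]
      exact ⟨fun h => hinj h.2, fun h => ⟨mem_univ _, by rw [h]⟩⟩
    simp only [hd]
    rw [h1, sum_singleton]
  obtain ⟨ts, hts⟩ := words_indep ℓ (univ.image fun i : ↥(IM W) => wd5 s i.1) d (fun x hx => by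
      rw [mem_image] at hx
      obtain ⟨i, -, rfl⟩ := hx
      exact hℓ i) (fun x hx b hb => by
      rw [mem_image] at hx
      obtain ⟨i, -, rfl⟩ := hx
      exact wd5_pos (by omega) i b hb)
    ⟨wd5 s i0.1, mem_image_of_mem _ (mem_univ _), by rw [hdi]; exact ha0⟩
  apply hts
  rw [sum_image fun i _ j _ h => hinj h]
  simp only [hdi]
  have h1 := hexp ℂ (Zt ts) (fun u v _ _ => Zt_mul ts u v) s (by omega) a
  simp only [ex_Zt] at h1
  rw [h1, ← sum_fiberwise_of_maps_to (s := univ) (t := univ) (g := jj) (fun j _ => mem_univ _)]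
  refine sum_eq_zero fun i _ => ?_
  have h2 : ∑ j with jj j = i, ((a (ii j) * cc j : ℤ) : ℂ) *
      (Zt ts (jj j).1.1 * Zt ts (gw5 s (jj j).1.2)) =
      ((∑ j with jj j = i, a (ii j) * cc j : ℤ) : ℂ) *
        (Zt ts i.1.1 * Zt ts (gw5 s i.1.2)) := by
    push_cast
    rw [sum_mul]
    refine sum_congr rfl fun j hj => ?_
    rw [mem_filter] at hj
    rw [hj.2]
  rw [h2, hPa i, Int.cast_zero, zero_mul]

/-- the space spanned by the relations of height at most `H` between the values with one large argument -/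
noncomputable def relS5 (W k : ℕ) (H : ℝ) : Submodule ℚ (List ℕ →₀ ℚ) :=
  Submodule.span ℚ {c | (∀ w ∈ c.support, Fam5 W k w) ∧
    (∀ w, ∃ z : ℤ, c w = z ∧ |(z : ℝ)| ≤ H) ∧ c.sum (fun w x => (x : ℝ) * mz w) = 0}

/-- the map from the coefficients to the formal sums of words -/
noncomputable def En5 (W s : ℕ) : (↥(IM W) → ℚ) →ₗ[ℚ] (List ℕ →₀ ℚ) :=
  Fintype.linearCombination ℚ (fun i : ↥(IM W) => Finsupp.single (wd5 s i.1) (1 : ℚ))

lemma En5_apply (W s : ℕ) (c : ↥(IM W) → ℚ) : En5 W s c = ∑ i, Finsupp.single (wd5 s i.1) (c i) := by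
  rw [En5, Fintype.linearCombination_apply]
  refine sum_congr rfl fun i _ => ?_
  rw [Finsupp.smul_single, smul_eq_mul, mul_one]

lemma En5_wd {W s : ℕ} (hs : W < s) (c : ↥(IM W) → ℚ) (i : ↥(IM W)) :
    En5 W s c (wd5 s i.1) = c i := by
  classical
  rw [En5_apply, Finsupp.finsetSum_apply, sum_eq_single i]
  · rw [Finsupp.single_eq_same]
  · intro j _ hj
    rw [Finsupp.single_apply, if_neg]
    exact fun h => hj (wd5_inj hs h)
  · intro h
    exact absurd (mem_univ _) h

lemma En5_out {W s : ℕ} (c : ↥(IM W) → ℚ) {w : List ℕ} (hw : ∀ i : ↥(IM W), w ≠ wd5 s i.1) :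
    En5 W s c w = 0 := by
  classical
  rw [En5_apply, Finsupp.finsetSum_apply]
  refine sum_eq_zero fun i _ => ?_
  rw [Finsupp.single_apply, if_neg fun h => hw i h.symm]

lemma En5_inj {W s : ℕ} (hs : W < s) : Function.Injective (En5 W s) := by
  intro c d h
  funext i
  rw [← En5_wd hs c i, h, En5_wd hs d i]

lemma En5_sum {W s : ℕ} (c : ↥(IM W) → ℚ) :
    (En5 W s c).sum (fun w x => (x : ℝ) * mz w) = ∑ i, (c i : ℝ) * mz (wd5 s i.1) := by
  classical
  rw [En5_apply]
  rw [← Finsupp.sum_finsetSum_index (h := fun w x => ((x : ℚ) : ℝ) * mz w)]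
  · refine sum_congr rfl fun i _ => ?_
    rw [Finsupp.sum_single_index]
    rw [Rat.cast_zero, zero_mul]
  · intro w
    rw [Rat.cast_zero, zero_mul]
  · intro w x y
    rw [Rat.cast_add, add_mul]

/-- **the dimension of the space of relations, for almost all `s`** -/
theorem main5 (W κ : ℕ) : ∃ K : ℕ, ∀ C : ℝ, 1 < C → ∃ N0 : ℕ, ∀ N : ℕ, N0 ≤ N → ∀ B : Finset ℕ,
    (∀ s ∈ B, (N ≤ s ∧ s ≤ κ * N) ∧ Module.finrank ℚ (relS5 W s (C ^ s)) +
      ∑ j ∈ range (W + 1), 2 ^ j * Module.finrank ℚ (US (W - j)) ≠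
        ∑ j ∈ range (W + 1), 2 ^ j * nA (W - j)) → B.card ≤ K := by
  classical
  obtain ⟨m, ii, jj, cc, hexp, K, hK⟩ := core5 W κ
  refine ⟨K, fun C hC => ?_⟩
  set P := Ph5 ii jj cc with hP
  have hPinj : Function.Injective P := Ph5_inj ii jj cc hexp
  set R := LinearMap.ker ((ev5 W).comp P) with hR
  have hrank := rank_rel5 P hPinj
  obtain ⟨H0, hH0, hspan⟩ := span_int R
  obtain ⟨N1, hN1⟩ : ∃ N1 : ℕ, ∀ k, N1 ≤ k → H0 ≤ C ^ k := by
    have h1 := (tendsto_pow_atTop_atTop_of_one_lt hC).eventually_ge_atTop H0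
    rw [Filter.eventually_atTop] at h1
    exact h1
  obtain ⟨N0, hN0⟩ := hK (C ^ κ)
  refine ⟨N0 + N1 + W + 3, fun N hN B hB => ?_⟩
  refine hN0 N (by omega) _ fun s hs => ?_
  obtain ⟨⟨hk1, hk2⟩, hk3⟩ := hB s hs
  have hsW : W < s := by omega
  refine ⟨⟨by omega, hk2⟩, ?_⟩
  by_contra hcon
  push Not at hcon
  apply hk3
  rw [← hrank, add_left_inj]
  -- the two spaces
  have hval : ∀ (c : ↥(IM W) → ℚ) (x : ℕ × List ℕ),
      ∑ i : ↥(IM W) with i.1.2 = x, (P c i : ℝ) * mz i.1.1 =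
      ∑ j with (jj j).1.2 = x, ((c (ii j) * cc j : ℚ) : ℝ) * mz (jj j).1.1 := by
    intro c x
    rw [← sum_fiberwise_of_maps_to (s := univ.filter fun j => (jj j).1.2 = x)
      (t := univ.filter fun i : ↥(IM W) => i.1.2 = x) (g := jj) (fun j hj => by
        rw [mem_filter] at hj ⊢
        exact ⟨mem_univ _, hj.2⟩)]
    refine sum_congr rfl fun i hi => ?_
    rw [mem_filter] at hi
    rw [filter_filter]
    have h1 : (univ.filter fun j => (jj j).1.2 = x ∧ jj j = i) =
        univ.filter fun j => jj j = i := by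
      ext j
      rw [mem_filter, mem_filter]
      constructor
      · rintro ⟨g1, -, g2⟩
        exact ⟨g1, g2⟩
      · rintro ⟨g1, g2⟩
        refine ⟨g1, ?_, g2⟩
        rw [g2]
        exact hi.2
    rw [h1]
    have h2 : P c i = ∑ j with jj j = i, c (ii j) * cc j := rfl
    rw [h2]
    push_cast
    rw [sum_mul]
    refine sum_congr rfl fun j hj => ?_
    rw [mem_filter] at hj
    rw [hj.2]
  have hmemR : ∀ c : ↥(IM W) → ℚ, c ∈ R ↔ ∀ x : ℕ × List ℕ,
      ∑ j with (jj j).1.2 = x, ((c (ii j) * cc j : ℚ) : ℝ) * mz (jj j).1.1 = 0 := by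
    intro c
    rw [hR, LinearMap.mem_ker]
    constructor
    · intro h x
      by_cases hx : x ∈ XM W
      · have h1 := congrArg Subtype.val (congrFun h ⟨x, hx⟩)
        have h2 : ∑ i : ↥(IM W) with i.1.2 = x, (P c) i • mz i.1.1 = 0 := h1
        rw [← hval]
        rw [← h2]
        exact sum_congr rfl fun i _ => by rw [Rat.smul_def]
      · refine sum_eq_zero fun j hj => ?_
        rw [mem_filter] at hj
        exfalso
        apply hx
        have h1 := mem_IM.1 (jj j).2
        rw [← hj.2]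
        exact mem_XM.2 ⟨h1.2.1, by omega⟩
    · intro h
      funext x
      ext
      show ∑ i : ↥(IM W) with i.1.2 = x.1, (P c) i • mz i.1.1 = 0
      rw [← h x.1, ← hval]
      exact sum_congr rfl fun i _ => by rw [Rat.smul_def]
  have hle1 : relS5 W s (C ^ s) ≤ R.map (En5 W s) := by
    rw [relS5, Submodule.span_le]
    rintro c ⟨hc1, hc2, hc3⟩
    rw [SetLike.mem_coe, Submodule.mem_map]
    have hcE : En5 W s (fun i => c (wd5 s i.1)) = c := by
      ext w
      by_cases hw : ∃ i : ↥(IM W), w = wd5 s i.1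
      · obtain ⟨i, rfl⟩ := hw
        rw [En5_wd hsW]
      · push Not at hw
        rw [En5_out _ hw]
        by_contra h0
        have h1 := hc1 w (Finsupp.mem_support_iff.2 fun h => h0 h.symm)
        rw [fam5_iff (by omega)] at h1
        obtain ⟨i, hi⟩ := h1
        exact hw i hi
    refine ⟨fun i => c (wd5 s i.1), ?_, hcE⟩
    choose z hz1 hz2 using hc2
    rw [hmemR]
    by_contra hcon2
    push Not at hcon2
    obtain ⟨x, hnr⟩ := hcon2
    refine hnr ?_
    have h1 := hcon (fun i => z (wd5 s i.1)) (fun i => ?_) ?_ x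
    · rw [← h1]
      refine sum_congr rfl fun j _ => ?_
      rw [hz1]
      push_cast
      rfl
    · refine (hz2 _).trans ?_
      rw [← pow_mul]
      exact pow_le_pow_right₀ hC.le hk2
    · have h1 := En5_sum (s := s) fun i : ↥(IM W) => c (wd5 s i.1)
      rw [hcE, hc3] at h1
      rw [h1]
      refine sum_congr rfl fun i _ => ?_
      rw [hz1]
      push_cast
      rfl
  have hle2 : R.map (En5 W s) ≤ relS5 W s (C ^ s) := by
    refine (Submodule.map_mono hspan).trans ?_
    rw [Submodule.map_span, Submodule.span_le]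
    rintro _ ⟨c, ⟨hcR, hcz⟩, rfl⟩
    have hH : H0 ≤ C ^ s := hN1 _ (by omega)
    refine Submodule.subset_span ⟨fun w hw => ?_, fun w => ?_, ?_⟩
    · by_contra h0
      rw [fam5_iff (by omega)] at h0
      push Not at h0
      rw [Finsupp.mem_support_iff] at hw
      exact hw (En5_out c h0)
    · by_cases hw : ∃ i : ↥(IM W), w = wd5 s i.1
      · obtain ⟨i, rfl⟩ := hw
        obtain ⟨z, hz1, hz2⟩ := hcz i
        exact ⟨z, by rw [En5_wd hsW, hz1], hz2.trans hH⟩
      · push Not at hw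
        exact ⟨0, by rw [En5_out c hw, Int.cast_zero], by
          rw [Int.cast_zero, abs_zero]
          exact hH0.trans hH⟩
    · rw [En5_sum]
      choose z hz1 hz2 using hcz
      have h1 := hexp ℝ mz mz_stuffle s (by omega) z
      have hexR : ∀ u, ex mz u = mz u := by
        intro u
        by_cases h : u = []
        · rw [h, ex_nil, mz]
        · rw [ex_ne _ h]
      simp only [hexR] at h1
      have h2 : ∑ i : ↥(IM W), (c i : ℝ) * mz (wd5 s i.1) =
          ∑ i : ↥(IM W), (z i : ℝ) * mz (wd5 s i.1) :=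
        sum_congr rfl fun i _ => by rw [hz1 i, Rat.cast_intCast]
      rw [h2, h1]
      rw [hmemR] at hcR
      rw [← sum_fiberwise_of_maps_to (s := univ)
        (t := univ.image fun j => (jj j).1.2)
        (g := fun j => (jj j).1.2) (fun j _ => mem_image_of_mem _ (mem_univ j))]
      refine sum_eq_zero fun x _ => ?_
      have h3 : ∑ j with (jj j).1.2 = x, ((z (ii j) * cc j : ℤ) : ℝ) *
          (mz (jj j).1.1 * mz (gw5 s (jj j).1.2)) =
          (∑ j with (jj j).1.2 = x,
            ((c (ii j) * cc j : ℚ) : ℝ) * mz (jj j).1.1) * mz (gw5 s x) := by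
        rw [sum_mul]
        refine sum_congr rfl fun j hj => ?_
        rw [mem_filter] at hj
        rw [hj.2, hz1]
        push_cast
        ring
      rw [h3, hcR, zero_mul]
  rw [le_antisymm hle1 hle2]
  exact (LinearEquiv.finrank_eq (Submodule.equivMapOfInjective _ (En5_inj hsW) R)).symm

end Pool.Agent.X90.DH
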