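import Pool.Agent.X90.DE.Main

/-!
# Counting words with one large letter, mixed weights
-/

set_option autoImplicit false

namespace Pool.Agent.X90.DH

open Finset
open Pool.Agent.X90.DB (Ad)
open Pool.Agent.X90.DE

/-- the number of admissible words of weight at most `m` -/
def nA (m : ℕ) : ℕ := ∑ n ∈ range (m + 1), na n

/-- the admissible words of weight at most `m` -/
noncomputable def al (m : ℕ) : Finset (List ℕ) := by
  classical
  exact (range (m + 1)).biUnion ad

lemma mem_al {m : ℕ} {q : List ℕ} : q ∈ al m ↔ (q = [] ∨ Ad q) ∧ q.sum ≤ m := by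
  classical
  have e : al m = (range (m + 1)).biUnion ad := by
    rw [al]
  rw [e, mem_biUnion]
  constructor
  · rintro ⟨n, hn, h⟩
    rw [mem_range] at hn
    rw [mem_ad] at h
    exact ⟨h.1, by omega⟩
  · rintro ⟨h1, h2⟩
    exact ⟨q.sum, mem_range.2 (by omega), mem_ad.2 ⟨h1, rfl⟩⟩

lemma card_al (m : ℕ) : (al m).card = nA m := by
  classical
  have e : al m = (range (m + 1)).biUnion ad := by
    rw [al]
  rw [e, card_biUnion, nA]
  · exact sum_congr rfl fun n _ => card_ad n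
  · intro i _ j _ hij
    simp only [Function.onFun]
    rw [disjoint_left]
    intro r h1 h2
    rw [mem_ad] at h1 h2
    exact hij (h1.2.symm.trans h2.2)

/-- the pairs of a number and a word, of total weight `j` -/
def ys (j : ℕ) : Finset (ℕ × List ℕ) := (rs j).image fun r => (j - r.sum, r)

lemma mem_ys {j : ℕ} {x : ℕ × List ℕ} : x ∈ ys j ↔ (∀ t ∈ x.2, 1 ≤ t) ∧ x.1 + x.2.sum = j := by
  rw [ys, mem_image]
  constructor
  · rintro ⟨r, hr, rfl⟩
    rw [mem_rs] at hr
    exact ⟨hr.1, by simp only; omega⟩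
  · rintro ⟨h1, h2⟩
    refine ⟨x.2, mem_rs.2 ⟨h1, by omega⟩, ?_⟩
    ext1
    · simp only
      omega
    · rfl

lemma card_ys (j : ℕ) : (ys j).card = 2 ^ j := by
  rw [ys, card_image_of_injective _ fun r r' h => (Prod.ext_iff.1 h).2, card_rs]

/-- the pairs of a number and a word, of total weight at most `W` -/
def XM (W : ℕ) : Finset (ℕ × List ℕ) := (range (W + 1)).biUnion ys

lemma mem_XM {W : ℕ} {x : ℕ × List ℕ} : x ∈ XM W ↔ (∀ t ∈ x.2, 1 ≤ t) ∧ x.1 + x.2.sum ≤ W := by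
  rw [XM, mem_biUnion]
  constructor
  · rintro ⟨n, hn, h⟩
    rw [mem_range] at hn
    rw [mem_ys] at h
    exact ⟨h.1, by omega⟩
  · rintro ⟨h2, h3⟩
    exact ⟨x.1 + x.2.sum, mem_range.2 (by omega), mem_ys.2 ⟨h2, rfl⟩⟩

lemma sum_XM (W : ℕ) (f : ℕ → ℕ) : ∑ x ∈ XM W, f (W - (x.1 + x.2.sum)) =
    ∑ j ∈ range (W + 1), 2 ^ j * f (W - j) := by
  rw [XM, sum_biUnion]
  · refine sum_congr rfl fun n _ => ?_
    rw [← card_ys n, ← smul_eq_mul, ← sum_const]
    refine sum_congr rfl fun x hx => ?_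
    rw [(mem_ys.1 hx).2]
  · intro i _ j _ hij
    simp only [Function.onFun]
    rw [disjoint_left]
    intro r h1 h2
    rw [mem_ys] at h1 h2
    exact hij (h1.2.symm.trans h2.2)

/-- the triples of an admissible word, a number and a word, of total weight at most `W` -/
noncomputable def IM (W : ℕ) : Finset (List ℕ × ℕ × List ℕ) :=
  (XM W).biUnion fun x => al (W - (x.1 + x.2.sum)) ×ˢ {x}

lemma mem_IM {W : ℕ} {i : List ℕ × ℕ × List ℕ} : i ∈ IM W ↔
    (i.1 = [] ∨ Ad i.1) ∧ (∀ t ∈ i.2.2, 1 ≤ t) ∧ i.1.sum + (i.2.1 + i.2.2.sum) ≤ W := by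
  rw [IM, mem_biUnion]
  constructor
  · rintro ⟨x, hx, h⟩
    rw [mem_product, mem_singleton, mem_al] at h
    obtain ⟨⟨h1, h2⟩, h3⟩ := h
    rw [mem_XM] at hx
    rw [h3]
    exact ⟨h1, hx.1, by omega⟩
  · rintro ⟨h1, h2, h3⟩
    exact ⟨i.2, mem_XM.2 ⟨h2, by omega⟩, mem_product.2 ⟨mem_al.2 ⟨h1, by omega⟩,
      mem_singleton.2 rfl⟩⟩

lemma card_IM (W : ℕ) : (IM W).card = ∑ j ∈ range (W + 1), 2 ^ j * nA (W - j) := by
  rw [IM, card_biUnion, ← sum_XM]
  · refine sum_congr rfl fun x _ => ?_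
    rw [card_product, card_al, card_singleton, mul_one]
  · intro i _ j _ hij
    simp only [Function.onFun]
    rw [disjoint_left]
    intro r h1 h2
    rw [mem_product, mem_singleton] at h1 h2
    exact hij (h1.2.symm.trans h2.2)

end Pool.Agent.X90.DH
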