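import Pool.Agent.X90.DH.Cmp5

/-!
# Words with one large letter, mixed weights
-/

set_option autoImplicit false

namespace Pool.Agent.X90.DH

open Finset
open Pool.Agent.Y760.ZG (mz)
open Pool.Agent.Y760.ZF (sti)
open Pool.Agent.X90.DB (Ad ix ex ex_nil ex_ne)
open Pool.Agent.X90.DC
open Pool.Agent.X90.DD
open Pool.Agent.X90.DE

/-- the pattern with one letter that depends on the variable -/
def pt5 (i : List ℕ × ℕ × List ℕ) : List (Lr 1) := fp i.1 ++ (i.2.1, fun _ => 1) :: fp i.2.2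

/-- the word with one large letter, without fixed part -/
def gw5 (s : ℕ) (x : ℕ × List ℕ) : List ℕ := (x.1 + s) :: x.2

/-- the word with one large letter -/
def wd5 (s : ℕ) (i : List ℕ × ℕ × List ℕ) : List ℕ := i.1 ++ gw5 s i.2

lemma ix_pt5 (s : Fin 1 → ℕ) (i : List ℕ × ℕ × List ℕ) : ix s (pt5 i) = wd5 (s 0) i := by
  rw [pt5, ix_append, ix_fp, ix_letter]
  rfl

lemma ge_pt5 {i : List ℕ × ℕ × List ℕ} (h1 : i.1 = [] ∨ Ad i.1) (h2 : ∀ t ∈ i.2.2, 1 ≤ t) :
    Ge (pt5 i) := by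
  obtain ⟨q, b0, r⟩ := i
  simp only [pt5] at *
  constructor
  · intro u hu
    cases q with
    | nil =>
      have : u = (b0, fun _ => 1) := by
        simp only [fp, List.map_nil, List.nil_append, List.head?_cons, Option.mem_some_iff] at hu
        exact hu.symm
      rw [this]
      exact Or.inl one_ne
    | cons b q =>
      have : u = (b, 0) := by
        simp only [fp, List.map_cons, List.cons_append, List.head?_cons,
          Option.mem_some_iff] at hu
        exact hu.symm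
      rw [this]
      exact Or.inr (h1.resolve_left (List.cons_ne_nil _ _)).1
  · intro u hu
    rw [List.mem_append, List.mem_cons, fp, fp, List.mem_map, List.mem_map] at hu
    rcases hu with ⟨b, hb, rfl⟩ | rfl | ⟨b, hb, rfl⟩
    · right
      rcases h1 with rfl | h1
      · exact absurd hb List.not_mem_nil
      · exact h1.pos b hb
    · exact Or.inl one_ne
    · exact Or.inr (h2 b hb)

lemma wd5_sum (s : ℕ) (i : List ℕ × ℕ × List ℕ) :
    (wd5 s i).sum = s + (i.1.sum + (i.2.1 + i.2.2.sum)) := by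
  rw [wd5, gw5, List.sum_append, List.sum_cons]
  omega

/-- **the relations between the values with one large argument** -/
theorem core5 (W κ : ℕ) : ∃ (m : ℕ) (ii jj : Fin m → ↥(IM W)) (cc : Fin m → ℤ),
    (∀ (A : Type) [CommRing A] (Z : List ℕ → A),
      (∀ u v, Ad u → Ad v → Z u * Z v = ((sti u v).map Z).sum) →
      ∀ s : ℕ, 2 ≤ s → ∀ c : ↥(IM W) → ℤ, ∑ i, (c i : A) * ex Z (wd5 s i.1) =
        ∑ j, ((c (ii j) * cc j : ℤ) : A) *
          (ex Z (jj j).1.1 * ex Z (gw5 s (jj j).1.2))) ∧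
    ∃ K : ℕ, ∀ C : ℝ, ∃ N0 : ℕ, ∀ N : ℕ, N0 ≤ N → ∀ B : Finset ℕ,
      (∀ s ∈ B, (N ≤ s ∧ s ≤ κ * N) ∧ ∃ c : ↥(IM W) → ℤ, (∀ i, |(c i : ℝ)| ≤ C ^ N) ∧
        ∑ i, (c i : ℝ) * mz (wd5 s i.1) = 0 ∧
        ∃ x : ℕ × List ℕ, ∑ j with (jj j).1.2 = x,
          ((c (ii j) * cc j : ℤ) : ℝ) * mz (jj j).1.1 ≠ 0) → B.card ≤ K := by
  classical
  set e := (IM W).equivFin with he
  have hI : ∀ i : ↥(IM W), (i.1.1 = [] ∨ Ad i.1.1) ∧ (∀ t ∈ i.1.2.2, 1 ≤ t) ∧
      i.1.1.sum + (i.1.2.1 + i.1.2.2.sum) ≤ W := fun i => mem_IM.1 i.2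
  obtain ⟨m, idx, cc, p, v, hpv, hexp, K, hK⟩ := lin 1 (IM W).card
    (fun a => pt5 (e.symm a).1) (fun a => ge_pt5 (hI _).1 (hI _).2.1) κ
  have h1 : ∀ j, ∃ x : ℕ × List ℕ, v j = (x.1, fun _ => 1) :: fp x.2 ∧
      (∀ t ∈ x.2, 1 ≤ t) ∧ (p j).sum + (x.1 + x.2.sum) ≤ W := fun j => by
    set T := (e.symm (idx j)).1.1.sum + ((e.symm (idx j)).1.2.1 + (e.symm (idx j)).1.2.2.sum)
      with hT
    have hTW : T ≤ W := (hI (e.symm (idx j))).2.2
    obtain ⟨r, h2, h3, h4⟩ := struct T (p j).sum (v j) (hpv j).2.2.1 fun s => by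
      rw [(hpv j).2.2.2 s, ix_pt5, wd5_sum]
    exact ⟨(T - (p j).sum - r.sum, r), h2, h3, by simp only; omega⟩
  choose x hx1 hx2 hx3 using h1
  have hixv : ∀ (s : Fin 1 → ℕ) j, ix s (v j) = gw5 (s 0) (x j) := by
    intro s j
    rw [hx1 j, ix_letter]
    rfl
  refine ⟨m, fun j => e.symm (idx j), fun j => ⟨(p j, x j), mem_IM.2 ⟨(hpv j).1, hx2 j, hx3 j⟩⟩,
    cc, ?_, K, ?_⟩
  · intro A _ Z hZ s hs c
    have h2 := hexp A Z hZ (fun _ => s) (fun _ => hs) fun a => c (e.symm a)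
    simp only [ix_pt5, hixv] at h2
    rw [← e.symm.sum_comp]
    exact h2
  · intro C
    obtain ⟨N0, hN0⟩ := hK C
    refine ⟨N0 + 2, fun N hN B hB => ?_⟩
    have h2 := hN0 N (by omega) (B.map ⟨fun (s : ℕ) (_ : Fin 1) => s, fun s s' h => congrFun h 0⟩) (by
      intro s' hs'
      rw [mem_map] at hs'
      obtain ⟨s, hs, rfl⟩ := hs'
      obtain ⟨h3, c, h4, h5, x0, h6⟩ := hB s hs
      refine ⟨fun _ => h3, fun a => c (e.symm a), fun a => h4 _, ?_, gw5 s x0, ?_⟩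
      · rw [← h5, ← e.symm.sum_comp]
        exact sum_congr rfl fun a _ => by rw [ix_pt5]; rfl
      · have h7 : (univ.filter fun j => ix (fun _ : Fin 1 => s) (v j) = gw5 s x0) =
            univ.filter fun j => x j = x0 := by
          ext j
          rw [mem_filter, mem_filter, hixv, gw5, gw5, List.cons.injEq, Prod.ext_iff]
          simp only [mem_univ, true_and]
          constructor
          · rintro ⟨g4, g5⟩
            exact ⟨by omega, g5⟩
          · rintro ⟨g3, g5⟩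
            exact ⟨by rw [g3], g5⟩
        show ∑ j with ix (fun _ : Fin 1 => s) (v j) = gw5 s x0, _ ≠ 0
        rw [h7]
        exact h6)
    rwa [card_map, Nat.sub_self, pow_zero, mul_one] at h2

end Pool.Agent.X90.DH
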