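import Pool.Agent.X90.DH.Core5

/-!
# The space of relations, mixed weights
-/

set_option autoImplicit false

namespace Pool.Agent.X90.DH

open Finset
open Pool.Agent.Y760.ZG (mz)
open Pool.Agent.Y760.ZF (sti)
open Pool.Agent.X90.DB (Ad ix ex ex_nil ex_ne)
open Pool.Agent.X90.DC
open Pool.Agent.X90.DD
open Pool.Agent.X90.DE

/-- the span of the values of weight at most `m` -/
noncomputable def US (m : ℕ) : Submodule ℚ ℝ :=
  Submodule.span ℚ (mz '' {p | (p = [] ∨ Ad p) ∧ p.sum ≤ m})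

/-- the coefficients of the expansion -/
def Ph5 {W m : ℕ} (ii jj : Fin m → ↥(IM W)) (cc : Fin m → ℤ) :
    (↥(IM W) → ℚ) →ₗ[ℚ] (↥(IM W) → ℚ) where
  toFun c i := ∑ j with jj j = i, c (ii j) * cc j
  map_add' c d := by
    funext i
    simp only [Pi.add_apply, add_mul, sum_add_distrib]
  map_smul' a c := by
    funext i
    simp only [Pi.smul_apply, smul_eq_mul, RingHom.id_apply, mul_sum, mul_assoc]

lemma mz_mem5 {n : ℕ} {p : List ℕ} (hp : p = [] ∨ Ad p) (hn : p.sum ≤ n) : mz p ∈ US n :=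
  Submodule.subset_span ⟨p, ⟨hp, hn⟩, rfl⟩

lemma US_eq (n : ℕ) : US n = Submodule.span ℚ ((al n).image mz : Set ℝ) := by
  classical
  rw [US, coe_image]
  congr 2
  ext p
  rw [mem_coe, mem_al]
  rfl

instance (n : ℕ) : Module.Finite ℚ (US n) := by
  classical
  rw [US_eq]
  exact Module.Finite.span_finset ℚ _

/-- the values of the coefficients -/
noncomputable def ev5 (W : ℕ) :
    (↥(IM W) → ℚ) →ₗ[ℚ] ((x : ↥(XM W)) → ↥(US (W - (x.1.1 + x.1.2.sum)))) where
  toFun g x := ⟨∑ i with i.1.2 = x.1, g i • mz i.1.1,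
    Submodule.sum_mem _ fun i hi => Submodule.smul_mem _ _
      (mz_mem5 (mem_IM.1 i.2).1 (by
        have h1 := (mem_IM.1 i.2).2.2
        rw [(mem_filter.1 hi).2] at h1
        omega))⟩
  map_add' c d := by
    funext x
    ext
    simp only [Pi.add_apply, add_smul, sum_add_distrib, Submodule.coe_add]
  map_smul' a c := by
    funext x
    ext
    simp only [Pi.smul_apply, smul_eq_mul, RingHom.id_apply, smul_sum, mul_smul,
      SetLike.val_smul]

lemma ev5_surj (W : ℕ) : Function.Surjective (ev5 W) := by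
  classical
  intro z
  have h1 : ∀ x : ↥(XM W), ∃ l : List ℕ →₀ ℚ, l ∈ Finsupp.supported ℚ ℚ
      {p : List ℕ | (p = [] ∨ Ad p) ∧ p.sum ≤ W - (x.1.1 + x.1.2.sum)} ∧
      Finsupp.linearCombination ℚ mz l = z x := by
    intro x
    have h2 : (z x : ℝ) ∈ Submodule.span ℚ
      (mz '' {p | (p = [] ∨ Ad p) ∧ p.sum ≤ W - (x.1.1 + x.1.2.sum)}) := (z x).2
    rw [Finsupp.mem_span_image_iff_linearCombination] at h2
    exact h2
  choose l hl1 hl2 using h1
  have hX : ∀ i : ↥(IM W), i.1.2 ∈ XM W := fun i =>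
    mem_XM.2 ⟨(mem_IM.1 i.2).2.1, by
      have := (mem_IM.1 i.2).2.2
      omega⟩
  refine ⟨fun i => l ⟨i.1.2, hX i⟩ i.1.1, ?_⟩
  funext x
  ext
  show ∑ i : ↥(IM W) with i.1.2 = x.1,
    l ⟨i.1.2, hX i⟩ i.1.1 • mz i.1.1 = z x
  rw [← hl2 x, Finsupp.linearCombination_apply, Finsupp.sum]
  symm
  refine sum_bij_ne_zero (fun p hp _ => ⟨(p, x.1), ?_⟩) ?_ ?_ ?_ ?_
  · have h2 := (Finsupp.mem_supported ℚ _).1 (hl1 x) hp
    have h3 := mem_XM.1 x.2
    obtain ⟨h4, h5⟩ := h2
    exact mem_IM.2 ⟨h4, h3.1, by simp only; omega⟩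
  · intro p hp _
    exact mem_filter.2 ⟨mem_univ _, rfl⟩
  · intro p hp _ p' hp' _ h
    exact congrArg Prod.fst (congrArg Subtype.val h)
  · intro i hi hne
    rw [mem_filter] at hi
    have hx : (⟨i.1.2, hX i⟩ : ↥(XM W)) = x := by
      ext1
      exact hi.2
    rw [hx] at hne
    have hs : i.1.1 ∈ (l x).support := by
      rw [Finsupp.mem_support_iff]
      intro h0
      apply hne
      rw [h0, zero_smul]
    refine ⟨i.1.1, hs, hne, ?_⟩
    ext1
    exact Prod.ext rfl hi.2.symm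
  · intro p hp _
    rfl

/-- **the dimension of the space of relations** -/
theorem rank_rel5 {W : ℕ} (P : (↥(IM W) → ℚ) →ₗ[ℚ] (↥(IM W) → ℚ)) (hP : Function.Injective P) :
    Module.finrank ℚ (LinearMap.ker ((ev5 W).comp P)) +
      ∑ j ∈ range (W + 1), 2 ^ j * Module.finrank ℚ (US (W - j)) =
    ∑ j ∈ range (W + 1), 2 ^ j * nA (W - j) := by
  classical
  have h1 : Function.Surjective ((ev5 W).comp P) := by
    rw [LinearMap.coe_comp]
    exact (ev5_surj W).comp (LinearMap.surjective_of_injective hP)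
  have h2 := LinearMap.finrank_range_add_finrank_ker ((ev5 W).comp P)
  rw [LinearMap.range_eq_top.2 h1, finrank_top, Module.finrank_pi_fintype,
    Module.finrank_fintype_fun_eq_card, Fintype.card_coe, card_IM] at h2
  rw [← h2, ← sum_XM W fun n => Module.finrank ℚ (US n), add_comm]
  congr 1
  rw [← sum_coe_sort (XM W)]

end Pool.Agent.X90.DH
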